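import Pool.Agent.Lib.MP_dd6cbd_pr.Main

open Pool.Agent.Lib.MP_dd6cbd_pr

theorem Pool.Agent.Results.MP_dd6cbd_pr.MaxDivergence.result :
    IsGreatest ((fun p => sInf (KL p '' RBM 3 1)) '' stdSimplex ℝ (Fin 3 → Fin 2))
      (-(3 / 4) * Real.log (2 * √3 - 3)) :=
  main_result
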